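import Pool.Agent.Helper37.TWH.Defs

/-!
# Project TWH, block C: application of the core theorem
-/

universe u

set_option linter.unusedSectionVars false

namespace Pool.Agent.TWH

open VC Polynomial Pool.Agent.LT Pool.Agent.SC Pool.Agent.GC Pool.Agent.Helper91.Sect Pool.Agent

theorem goodPoly_smul {k K₀ : Type u} [Field k] [DecidableEq k] [Field K₀] [Algebra k K₀]
    {g x z₀ : K₀} {f : k[X]} {S : Finset k} (h : GoodPoly g x z₀ f S) {c : k} (hc : c ≠ 0) (j : ℕ) :
    GoodPoly (algebraMap k K₀ (c⁻¹ ^ j) * g) x z₀ f (S ∪ {c, c⁻¹}) := by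
  intro Ω _ _ P hP hx hf
  obtain ⟨h1, h2, h3, h4⟩ := h Ω P (fun c hc => hP c (Finset.mem_union_left _ hc)) hx hf
  have hcP : algebraMap K₀ Ω (algebraMap k K₀ c) ∈ P :=
    hP c (Finset.mem_union_right _ (by simp))
  have hcP' : algebraMap K₀ Ω (algebraMap k K₀ c⁻¹) ∈ P :=
    hP c⁻¹ (Finset.mem_union_right _ (by simp))
  have hc1 : algebraMap K₀ Ω (algebraMap k K₀ c⁻¹) ∉ P.nonunits := by
    intro h5
    rw [ValuationSubring.mem_nonunits_iff_or] at h5
    rcases h5 with h5 | h5
    · rw [map_eq_zero, map_eq_zero, inv_eq_zero] at h5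
      exact hc h5
    · apply h5
      rw [map_inv₀, map_inv₀, inv_inv]
      exact hcP
  refine ⟨?_, ?_, h3, h4⟩
  · rw [map_mul, map_pow, map_pow]
    exact P.mul_mem _ _ (pow_mem hcP' j) h1
  · rw [map_mul, map_pow, map_pow]
    intro h5
    have h6 := pow_notMem_nonunits hc1 j
    rw [P.mem_nonunits_iff, map_mul] at h5
    rw [P.mem_nonunits_iff, not_lt] at h6 h2
    exact absurd h5 (not_lt.2 (one_le_mul_of_one_le_of_one_le h6 h2))

theorem goodTwist_of_goodAt {F k K₀ : Type u} [Field F] [CharZero F] [Field k] [Algebra F k]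
    [DecidableEq k] [Field K₀] [Algebra k K₀]
    (hF : ∃ S : Finset F, Subfield.closure (S : Set F) = ⊤)
    (hk : ∃ S : Finset k, Subfield.closure (S : Set k) = ⊤)
    {v u : k} (hvu : AlgebraicIndependent F ![v, u]) (hfin : FiniteDimensional (k0 F v u) k)
    (hreg : ∀ z : k, IsAlgebraic (IntermediateField.adjoin F {v}) z →
      z ∈ IntermediateField.adjoin F {v})
    {g x z₀ : K₀} {f : k[X]} {S : Finset k} (hc : Coord g x z₀ f S) {c : k} (hc0 : c ≠ 0)
    {Δ : F[X][X]} (hΔ : GoodDisc Δ) {E : Finset k}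
    (hE : IntermediateField.adjoin F (E : Set k) = ⊤)
    (hgE : goodElts f 1 ∪ (S ∪ {c, c⁻¹}) ⊆ E) (h : GoodAt F v u Δ E) :
    GoodTwist g (c * v) := by
  intro n j hn hj K _ _ _ _ y hgen heq hrat s
  have hv0 : v ≠ 0 := by
    intro h0
    rw [h0] at hvu
    exact transc_F_t hvu isAlgebraic_zero
  let iFK : Algebra F K := ((algebraMap k K).comp (algebraMap F k)).toAlgebra
  have sFK : IsScalarTower F k K := IsScalarTower.of_algebraMap_eq fun _ => rfl
  have hgal := isGalois0 (K := K) hfin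
  have hg' : algebraMap k K₀ (c⁻¹ ^ j) * g ≠ 0 :=
    mul_ne_zero ((_root_.map_ne_zero _).2 (pow_ne_zero _ (inv_ne_zero hc0))) hc.g_ne
  have heq' : algebraMap k K (v ^ j) * y ^ n =
      algebraMap K₀ K (algebraMap k K₀ (c⁻¹ ^ j) * g) := by
    rw [map_mul, ← heq, ← IsScalarTower.algebraMap_apply k K₀ K, mul_pow, ← mul_assoc, ← map_mul,
      ← mul_assoc, ← mul_pow, inv_mul_cancel₀ hc0, one_pow, one_mul]
  have hS : CycE n (v ^ j) (algebraMap k K₀ (c⁻¹ ^ j) * g) x z₀ f (S ∪ {c, c⁻¹}) y :=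
    ⟨hn, pow_ne_zero _ hv0, hg', hc.ff, hc.x_tr, hc.gen₀, hgen, heq', hc.deg, hc.sep,
      goodPoly_smul hc.good hc0 j⟩
  refine isGeometric_core hF hk hvu hfin hj hS hrat hΔ ?_ ?_ s
  · intro W hFW hvW huW hunit
    obtain ⟨h1, h2⟩ := h (kbar k K) W hFW hvW huW hunit
    refine ⟨fun a ha => h1 a (hgE ha), fun τ hτ => ?_⟩
    have h3 : ∀ a ∈ E, τ (algebraMap k (kbar k K) a) = algebraMap k (kbar k K) a := by
      refine h2 τ.toRingEquiv.toRingHom (fun c => ?_) ?_ ?_ hτ.2
      · exact τ.commutes ⟨algebraMap F k c, IntermediateField.algebraMap_mem _ c⟩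
      · exact τ.commutes ⟨v, IntermediateField.subset_adjoin _ _ (Or.inl rfl)⟩
      · exact τ.commutes ⟨u, IntermediateField.subset_adjoin _ _ (Or.inr rfl)⟩
    let L : IntermediateField F k :=
      { carrier := {r | τ (algebraMap k (kbar k K) r) = algebraMap k (kbar k K) r}
        mul_mem' := fun {a b} ha hb => by
          change τ (algebraMap k (kbar k K) (a * b)) = _
          rw [map_mul, map_mul, ha, hb]
        add_mem' := fun {a b} ha hb => by
          change τ (algebraMap k (kbar k K) (a + b)) = _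
          rw [map_add, map_add, ha, hb]
        algebraMap_mem' := fun a =>
          τ.commutes ⟨algebraMap F k a, IntermediateField.algebraMap_mem _ a⟩
        inv_mem' := fun a ha => by
          change τ (algebraMap k (kbar k K) a⁻¹) = _
          rw [map_inv₀, map_inv₀, ha] }
    have hL : IntermediateField.adjoin F (E : Set k) ≤ L :=
      IntermediateField.adjoin_le_iff.2 fun z hz => h3 z hz
    rw [hE] at hL
    exact fun a => hL (IntermediateField.mem_top (x := a))
  · intro τ
    refine exists_agree (t0 F v u) (kM F K v u) ?_ τ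
    rintro z ⟨r, rfl⟩ hz
    have h1 : IsAlgebraic (IntermediateField.adjoin F {v}) r := by
      have h2 : IsAlgebraic (IntermediateField.adjoin F {v}) (algebraMap k (kbar k K) r) := by
        refine isAlgebraic_of_range_le (A := IntermediateField.adjoin F {t0 F v u}) (fun v' => ?_) hz
        exact ⟨⟨_, coe_mem_adjoin0 (F := F) (t := v) (u := u) (v := v) (v' := t0 F v u) rfl v'.2⟩,
          rfl⟩
      exact (isAlgebraic_algebraMap_iff (algebraMap k (kbar k K)).injective).1 h2
    obtain ⟨c', hc', hc''⟩ := mem_adjoin0 (F := F) (t := v) (u := u) (v := v)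
      (v' := t0 F v u) rfl (hreg r h1)
    refine ⟨c', hc'', ?_⟩
    rw [← hc']
    rfl

end Pool.Agent.TWH
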