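import Pool.Agent.Helper37.TWH.A5
import Pool.Agent.Helper37.TWH.C
import Pool.Agent.Helper37.PC.K0
import Pool.Agent.Helper13.TWH.B
import Pool.Agent.Helper13.TWH.E
import Pool.Agent.Helper10.TWH.D

/-!
# Project TWH: the final assembly (fixed base field)
-/

universe u

set_option linter.unusedSectionVars false

namespace Pool.Agent.TWH

open VC Polynomial Pool.Agent.LT Pool.Agent.SC Pool.Agent.GC Pool.Agent.Helper91.Sect Pool.Agent

/-- transcendence bases with two elements -/
theorem algInd_exchange {F k : Type u} [Field F] [Field k] [Algebra F k] {t u v : k}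
    (htu : AlgebraicIndependent F ![t, u])
    (hk : ∀ z : k, IsAlgebraic (IntermediateField.adjoin F {t, u}) z)
    (ht : IsAlgebraic (IntermediateField.adjoin F {v, u}) t) :
    AlgebraicIndependent F ![v, u] ∧
      ∀ z : k, IsAlgebraic (IntermediateField.adjoin F {v, u}) z := by
  have hr : ∀ a b : k, Set.range ![a, b] = {a, b} := fun a b => by
    simp only [Matrix.range_cons, Matrix.range_empty, Set.union_empty, Set.singleton_union]
  have hbasis : IsTranscendenceBasis F ![t, u] := by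
    refine (isTranscendenceBasis_iff_algebraicIndependent_isAlgebraic).2 ⟨htu, ⟨fun z => ?_⟩⟩
    rw [hr]
    exact IntermediateField.isAlgebraic_adjoin_iff.1 (hk z)
  set D := algebraicClosure (IntermediateField.adjoin F {v, u}) k with hD
  have htD : t ∈ D := mem_algebraicClosure_iff.2 ht
  have huD : u ∈ D := D.algebraMap_mem ⟨u, IntermediateField.subset_adjoin _ _ (Or.inr rfl)⟩
  have hall : ∀ z : k, IsAlgebraic (IntermediateField.adjoin F {v, u}) z := by
    intro z
    have h1 : IntermediateField.adjoin F {t, u} ≤ D.restrictScalars F := by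
      rw [IntermediateField.adjoin_le_iff]
      rintro x (hx | hx)
      · rw [hx]; exact htD
      · rw [Set.mem_singleton_iff.1 hx]; exact huD
    have h2 : IsAlgebraic D z := isAlgebraic_of_range_le (fun a => ⟨⟨_, h1 a.2⟩, rfl⟩) (hk z)
    exact (isIntegral_trans (R := IntermediateField.adjoin F {v, u}) (A := D) _
      h2.isIntegral).isAlgebraic
  refine ⟨?_, hall⟩
  refine Pool.Agent.PC.algInd_of_exchange (V := Fin 2) (ι := Fin 2) le_rfl hbasis fun e => ?_
  rw [hr]
  exact hall _

/-- a finitely generated field is finite over `F(v, u)` if it is algebraic -/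
theorem finite_k0 {F k : Type u} [Field F] [Field k] [Algebra F k]
    (hk : ∃ S : Finset k, Subfield.closure (S : Set k) = ⊤) {v u : k}
    (hall : ∀ z : k, IsAlgebraic (IntermediateField.adjoin F {v, u}) z) :
    FiniteDimensional (k0 F v u) k := by
  obtain ⟨S, hS⟩ := hk
  have h1 : Algebra.EssFiniteType F k := by
    rw [← IntermediateField.fg_top_iff]
    refine ⟨S, ?_⟩
    rw [eq_top_iff]
    intro z _
    have hz : z ∈ Subfield.closure (S : Set k) := by rw [hS]; trivial
    exact (Subfield.closure_le (t := (IntermediateField.adjoin F (S : Set k)).toSubfield)).2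
      (IntermediateField.subset_adjoin F (S : Set k)) hz
  have h2 : Algebra.EssFiniteType (k0 F v u) k := Algebra.EssFiniteType.of_comp F _ k
  have h3 : Algebra.IsAlgebraic (k0 F v u) k := ⟨hall⟩
  exact Algebra.finite_of_essFiniteType_of_isAlgebraic

theorem adjoin_eq_top {F k : Type u} [Field F] [Field k] [Algebra F k] {S : Finset k}
    (hS : Subfield.closure (S : Set k) = ⊤) {E : Finset k} (hE : S ⊆ E) :
    IntermediateField.adjoin F (E : Set k) = ⊤ := by
  rw [eq_top_iff]
  intro z _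
  have hz : z ∈ Subfield.closure (S : Set k) := by rw [hS]; trivial
  exact (Subfield.closure_le (t := (IntermediateField.adjoin F (E : Set k)).toSubfield)).2
    (fun x hx => IntermediateField.subset_adjoin F (E : Set k) (hE hx)) hz

/-- **All sections of the twists outside a hypersurface are geometric.** -/
theorem twists_hypersurface {F k K₀ : Type u} [Field F] [CharZero F] [Field k] [Algebra F k]
    [Field K₀] [Algebra k K₀]
    (hF : ∃ S : Finset F, Subfield.closure (S : Set F) = ⊤)
    (hk : ∃ S : Finset k, Subfield.closure (S : Set k) = ⊤)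
    {m : ℕ} {w : Fin (m + 1) → k} {i j l : Fin (m + 1)}
    (hw : AlgebraicIndependent F ![w i / w l, w j / w l])
    (hK₀ : IsFunctionField k K₀) {g : K₀} (hg : g ≠ 0) :
    ∃ Ψ : MvPolynomial (Fin (m + 1)) F, Ψ ≠ 0 ∧ ∀ a : Fin (m + 1) → F,
      MvPolynomial.eval a Ψ ≠ 0 →
        GoodTwist g (∑ e, algebraMap F k (a e) * w e) ∧
          TW.NoSecTwist g (∑ e, algebraMap F k (a e) * w e) := by
  classical
  have hk0 : CharZero k := charZero_of_injective_algebraMap (algebraMap F k).injective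
  have hl0 : w l ≠ 0 := by
    intro h
    rw [h, div_zero] at hw
    exact transc_F_t hw isAlgebraic_zero
  obtain ⟨F₁, hF₁, hF₁k, htu, hfin⟩ := exists_base_fieldF hF hk hw
  have hF₁0 : CharZero F₁ := charZero_of_injective_algebraMap (algebraMap F F₁).injective
  obtain ⟨x, z₀, f, S, hx, hgen, hdeg, hsep, hgood⟩ := exists_goodPoly hK₀ hg
  have hc : Coord g x z₀ f S := ⟨hg, hK₀, hx, hgen, hdeg, hsep, hgood⟩
  obtain ⟨E₀, hE₀⟩ := noSecTwist_of_goodAt hF₁ hk hc
  obtain ⟨Sk, hSk⟩ := hk
  have hk : ∃ S : Finset k, Subfield.closure (S : Set k) = ⊤ := ⟨Sk, hSk⟩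
  set E : Finset k := (goodElts f 1 ∪ (S ∪ {w l, (w l)⁻¹})) ∪ E₀ ∪ Sk ∪ {w i / w l} with hE
  have hall : ∀ z : k, IsAlgebraic (IntermediateField.adjoin F₁ {w i / w l, w j / w l}) z :=
    fun z => Algebra.IsAlgebraic.isAlgebraic z
  obtain ⟨Ψ₁, hΨ₁, Ψ₂, hΨ₂, h12⟩ := exists_goodAt (ι := Fin (m + 1)) (w := fun e => w e / w l)
    (i := i) (j := j) (l := l) (div_self hl0) htu hall E
  obtain ⟨Ψ₁', hΨ₁', h1⟩ := exists_desc (F := F) hΨ₁
  obtain ⟨Ψ₂', hΨ₂', h2⟩ := exists_desc (F := F) hΨ₂
  refine ⟨Ψ₁' * Ψ₂', mul_ne_zero hΨ₁' hΨ₂', fun a ha => ?_⟩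
  rw [map_mul] at ha
  obtain ⟨ha1, ha2⟩ := mul_ne_zero_iff.1 ha
  set b : Fin (m + 1) → F₁ := fun e => algebraMap F F₁ (a e) with hb
  obtain ⟨⟨Δ, hΔ, hgoodAt⟩, halg⟩ := h12 F₁ k b (h1 a ha1) (h2 a ha2)
  set v : k := ∑ e, algebraMap F k (a e) * (w e / w l) with hv
  have hvb : (∑ e, algebraMap F₁ k (b e) * algebraMap k k (w e / w l)) = v := by
    rw [hv]
    refine Finset.sum_congr rfl fun e _ => ?_
    rw [Algebra.algebraMap_self, RingHom.id_apply, hb]
    rfl
  have hEim : E.image (algebraMap k k) = E := by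
    rw [Algebra.algebraMap_self]
    exact Finset.image_id
  have hsum : ∑ e, algebraMap F k (a e) * w e = w l * v := by
    rw [hv, Finset.mul_sum]
    refine Finset.sum_congr rfl fun e _ => ?_
    field_simp
  rw [hvb, hEim] at hgoodAt
  rw [hvb] at halg
  have hti : IsAlgebraic (IntermediateField.adjoin F₁ {v, w j / w l}) (w i / w l) :=
    halg _ (Finset.mem_union_right _ (Finset.mem_singleton_self _))
  obtain ⟨hvu, hall'⟩ := algInd_exchange htu hall hti
  have hfin' := finite_k0 hk hall'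
  have hE1 : IntermediateField.adjoin F₁ (E : Set k) = ⊤ := adjoin_eq_top hSk
    (fun z hz => Finset.mem_union_left _ (Finset.mem_union_right _ hz))
  have hE2 : goodElts f 1 ∪ (S ∪ {w l, (w l)⁻¹}) ⊆ E := fun z hz =>
    Finset.mem_union_left _ (Finset.mem_union_left _ (Finset.mem_union_left _ hz))
  have hE3 : E₀ ⊆ E := fun z hz =>
    Finset.mem_union_left _ (Finset.mem_union_left _ (Finset.mem_union_right _ hz))
  have hreg : ∀ z : k, IsAlgebraic (IntermediateField.adjoin F₁ {v}) z →
      z ∈ IntermediateField.adjoin F₁ {v} := fun z hz =>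
    algClosed_of_goodAt hvu hfin' (fun z hz => ⟨⟨z, hF₁k z hz⟩, rfl⟩) hΔ hE1 hgoodAt z hz
  rw [hsum]
  exact ⟨goodTwist_of_goodAt hF₁ hk hvu hfin' hreg hc hl0 hΔ hE1 hE2 hgoodAt,
    hE₀ hvu hfin' hreg hl0 hΔ hE1 hE2 hE3 hgoodAt⟩

end Pool.Agent.TWH
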