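import Pool.Agent.Helper37.TWH.Defs

/-!
# Project TWH, block A1: clearing denominators
-/

universe u

namespace Pool.Agent.TWH

open Polynomial Pool.Agent.LT

section clear

variable {A Q : Type u} [CommRing A] [IsDomain A] [Field Q] [Algebra A Q] [IsFractionRing A Q]

theorem clear1 (p : Q[X]) : ∃ (b : A) (q : A[X]), b ≠ 0 ∧
    q.map (algebraMap A Q) = C (algebraMap A Q b) * p := by
  obtain ⟨b, hb, h⟩ := IsLocalization.integerNormalization_spec (nonZeroDivisors A) p
  refine ⟨b, _, nonZeroDivisors.ne_zero hb, h.trans ?_⟩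
  rw [← smul_eq_C_mul, algebraMap_smul]

theorem clear2 (p : Q[X][X]) : ∃ (b : A) (q : A[X][X]), b ≠ 0 ∧
    q.map (mapRingHom (algebraMap A Q)) = C (C (algebraMap A Q b)) * p := by
  induction p using Polynomial.induction_on' with
  | add p p' hp hp' =>
    obtain ⟨b, q, hb, hq⟩ := hp
    obtain ⟨b', q', hb', hq'⟩ := hp'
    refine ⟨b * b', C (C b') * q + C (C b) * q', mul_ne_zero hb hb', ?_⟩
    rw [Polynomial.map_add, Polynomial.map_mul, Polynomial.map_mul, hq, hq', map_C, map_C,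
      coe_mapRingHom, map_C, map_C, map_mul, C_mul, C_mul]
    ring
  | monomial n p =>
    obtain ⟨b, q, hb, hq⟩ := clear1 (A := A) p
    refine ⟨b, monomial n q, hb, ?_⟩
    rw [map_monomial, coe_mapRingHom, hq, C_mul_monomial]

end clear

/-- Good discriminants spread out. -/
theorem goodDisc_spread {A Q : Type u} [CommRing A] [IsDomain A] [Field Q] [Algebra A Q]
    [IsFractionRing A Q] {D : A[X][X]} {Δ : Q[X][X]} {N : ℕ} (hΔ : GoodDisc Δ)
    (hD : D.map (mapRingHom (algebraMap A Q)) ∣ Δ ^ N) :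
    ∃ (r : A) (Δ' : A[X][X]), r ≠ 0 ∧ ∀ (L : Type u) [Field L] (φ : A →+* L), φ r ≠ 0 →
      GoodDisc (Δ'.map (mapRingHom φ)) ∧
        D.map (mapRingHom φ) ∣ (Δ'.map (mapRingHom φ)) ^ N := by
  have hinj : Function.Injective (algebraMap A Q) := IsFractionRing.injective A Q
  have hinj1 : Function.Injective (mapRingHom (algebraMap A Q)) := map_injective _ hinj
  have hinj2 : Function.Injective (mapRingHom (mapRingHom (algebraMap A Q))) :=
    map_injective _ hinj1
  obtain ⟨Z, hZ⟩ := hD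
  obtain ⟨s, Δ', hs, hΔ'⟩ := clear2 (A := A) Δ
  obtain ⟨s₂, Z', hs₂, hZ'⟩ := clear2 (A := A) Z
  obtain ⟨⟨c, hc, hlead⟩, ⟨a, b, hab⟩⟩ := hΔ
  obtain ⟨s₃, a', hs₃, ha'⟩ := clear1 (A := A) a
  obtain ⟨s₄, b', hs₄, hb'⟩ := clear1 (A := A) b
  -- the leading coefficient
  have hlead' : ∃ c' : A, c' ≠ 0 ∧ Δ'.leadingCoeff = C c' := by
    have h1 : (Δ'.map (mapRingHom (algebraMap A Q))).leadingCoeff =
        C (algebraMap A Q s * c) := by
      rw [hΔ', leadingCoeff_mul, leadingCoeff_C, hlead, C_mul]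
    rw [leadingCoeff_map_of_injective hinj1, coe_mapRingHom] at h1
    have h2 : Δ'.leadingCoeff.natDegree = 0 := by
      have h3 := congrArg natDegree h1
      rwa [natDegree_C, natDegree_map_eq_of_injective hinj] at h3
    refine ⟨Δ'.leadingCoeff.coeff 0, ?_, eq_C_of_natDegree_eq_zero h2⟩
    intro h3
    have h4 := congrArg (fun p : Q[X] => p.coeff 0) h1
    simp only [coeff_map, coeff_C_zero, h3, map_zero] at h4
    exact mul_ne_zero ((map_ne_zero_iff _ hinj).2 hs) hc h4.symm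
  obtain ⟨c', hc', hlead'⟩ := hlead'
  -- the power
  have hpow : C (C s₂) * Δ' ^ N = C (C s) ^ N * D * Z' := by
    apply hinj2
    rw [map_mul, map_mul, map_mul, map_pow, map_pow]
    simp only [coe_mapRingHom] at hΔ' hZ' hZ ⊢
    rw [hΔ', hZ', mul_pow, hZ]
    simp only [map_C, coe_mapRingHom]
    ring
  -- separability
  have hsep : a' * Δ'.map (evalRingHom 0) * C s₄ + b' * derivative (Δ'.map (evalRingHom 0)) * C s₃ =
      C s * C s₃ * C s₄ := by
    apply hinj1
    have h1 : (mapRingHom (algebraMap A Q)) (Δ'.map (evalRingHom 0)) =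
        C (algebraMap A Q s) * Δ.map (evalRingHom 0) := by
      rw [coe_mapRingHom, Polynomial.map_map]
      have h2 : (algebraMap A Q).comp (evalRingHom 0) =
          (evalRingHom 0).comp (mapRingHom (algebraMap A Q)) := by
        refine Polynomial.ringHom_ext (fun x => ?_) ?_ <;> simp
      rw [h2, ← Polynomial.map_map, hΔ', Polynomial.map_mul, map_C, coe_evalRingHom, eval_C]
    rw [map_add, map_mul, map_mul, map_mul, map_mul, map_mul, map_mul, h1]
    rw [coe_mapRingHom, ← derivative_map]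
    rw [coe_mapRingHom] at h1
    rw [h1, ha', hb', map_C, map_C, map_C, derivative_C_mul]
    linear_combination (C (algebraMap A Q s) * C (algebraMap A Q s₃) * C (algebraMap A Q s₄)) * hab
  refine ⟨s * s₂ * s₃ * s₄ * c', Δ', mul_ne_zero (mul_ne_zero (mul_ne_zero (mul_ne_zero hs hs₂) hs₃)
    hs₄) hc', fun L _ φ hφ => ?_⟩
  rw [map_mul, map_mul, map_mul, map_mul] at hφ
  obtain ⟨h1, hφc⟩ := mul_ne_zero_iff.1 hφ
  obtain ⟨h2, hφ4⟩ := mul_ne_zero_iff.1 h1
  obtain ⟨h3, hφ3⟩ := mul_ne_zero_iff.1 h2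
  obtain ⟨hφ1, hφ2⟩ := mul_ne_zero_iff.1 h3
  refine ⟨⟨⟨φ c', hφc, ?_⟩, ?_⟩, ?_⟩
  · have h4 : (mapRingHom φ) Δ'.leadingCoeff ≠ 0 := by
      rw [hlead', coe_mapRingHom, map_C]
      exact C_ne_zero.2 hφc
    rw [leadingCoeff_map_of_leadingCoeff_ne_zero _ h4, hlead', coe_mapRingHom, map_C]
  · have h5 : (Δ'.map (mapRingHom φ)).map (evalRingHom 0) = (Δ'.map (evalRingHom 0)).map φ := by
      rw [Polynomial.map_map, Polynomial.map_map]
      congr 1
      refine Polynomial.ringHom_ext (fun x => ?_) ?_ <;> simp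
    rw [h5]
    have h6 := congrArg (Polynomial.map φ) hsep
    rw [Polynomial.map_add, Polynomial.map_mul, Polynomial.map_mul, Polynomial.map_mul,
      Polynomial.map_mul, Polynomial.map_mul, Polynomial.map_mul, ← derivative_map, map_C, map_C,
      map_C] at h6
    have h7 : φ s * φ s₃ * φ s₄ ≠ 0 := mul_ne_zero (mul_ne_zero hφ1 hφ3) hφ4
    refine ⟨C (φ s * φ s₃ * φ s₄)⁻¹ * (a'.map φ * C (φ s₄)),
      C (φ s * φ s₃ * φ s₄)⁻¹ * (b'.map φ * C (φ s₃)), ?_⟩
    calc _ = C (φ s * φ s₃ * φ s₄)⁻¹ * C (φ s * φ s₃ * φ s₄) := by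
          rw [C_mul (a := φ s * φ s₃), C_mul (a := φ s), ← h6]
          ring
      _ = 1 := by
          rw [← C_mul, inv_mul_cancel₀ h7, C_1]
  · have h8 := congrArg (Polynomial.map (mapRingHom φ)) hpow
    rw [Polynomial.map_mul, Polynomial.map_mul, Polynomial.map_mul, Polynomial.map_pow,
      Polynomial.map_pow, map_C, map_C, coe_mapRingHom, map_C, map_C] at h8
    refine ⟨C (C (φ s₂)⁻¹) * (C (C (φ s)) ^ N * Z'.map (mapRingHom φ)), ?_⟩
    calc _ = C (C (φ s₂)⁻¹) * (C (C (φ s₂)) * (Δ'.map (mapRingHom φ)) ^ N) := by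
          rw [← mul_assoc, ← C_mul, ← C_mul, inv_mul_cancel₀ hφ2, C_1, C_1, one_mul]
      _ = _ := by
          rw [h8]
          ring

end Pool.Agent.TWH
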