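import Pool.Agent.Helper13.GC.D2

/-!
# Project TWH: all sections of the twists outside a hypersurface are geometric: definitions

`v = ∑ a_e w_e` is a general member of a linear system of functions of transcendence degree at least two; the twists
`v^j yⁿ = g` of an arbitrary cyclic cover.
-/

universe u

namespace Pool.Agent.TWH

open VC Polynomial Pool.Agent.LT Pool.Agent.SC Pool.Agent.GC Pool.Agent.Helper91.Sect Pool.Agent

/-- The elements of `E ⊆ k` are regular, and fixed by the inertia groups over `F(v, u)`, at all valuation rings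
`W ⊇ F[v, u]` (of any extension of `k`) in which `Δ(v, u)` is a unit. -/
def GoodAt (F : Type u) {k : Type u} [Field F] [Field k] [Algebra F k] (v u : k) (Δ : F[X][X])
    (E : Finset k) : Prop :=
  ∀ (Ω : Type u) [Field Ω] [Algebra k Ω] (W : ValuationSubring Ω),
    (∀ c : F, algebraMap k Ω (algebraMap F k c) ∈ W) →
    algebraMap k Ω v ∈ W → algebraMap k Ω u ∈ W →
    algebraMap k Ω (ev F v u Δ) ∉ W.nonunits →
    (∀ a ∈ E, algebraMap k Ω a ∈ W) ∧
      ∀ τ : Ω →+* Ω, (∀ c : F, τ (algebraMap k Ω (algebraMap F k c)) =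
          algebraMap k Ω (algebraMap F k c)) →
        τ (algebraMap k Ω v) = algebraMap k Ω v → τ (algebraMap k Ω u) = algebraMap k Ω u →
        (∀ z ∈ W, τ z - z ∈ W.nonunits) → ∀ a ∈ E, τ (algebraMap k Ω a) = algebraMap k Ω a

end Pool.Agent.TWH
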