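import Pool.Agent.Helper37.TWH.A1
import Pool.Agent.Helper13.GC.C4

/-!
# Project TWH, block A2: certificates for algebraic elements
-/

universe u

namespace Pool.Agent.TWH

open Polynomial Pool.Agent.LT Pool.Agent.GC

/-- A polynomial relation for an algebraic element, together with a Bezout identity. -/
theorem exists_cert {B L : Type u} [CommRing B] [IsDomain B] [Field L] [CharZero L] (φ : B →+* L)
    (hφ : Function.Injective φ) {e : L} (he : ∃ p : B[X], p ≠ 0 ∧ p.eval₂ φ e = 0) :
    ∃ (M P N : B[X]) (D : B), D ≠ 0 ∧ M.eval₂ φ e = 0 ∧ P * M + N * derivative M = C D ∧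
      M.leadingCoeff ∣ D := by
  let ψ : FractionRing B →+* L := IsFractionRing.lift hφ
  let i : Algebra (FractionRing B) L := ψ.toAlgebra
  have hψ : ∀ b : B, ψ (algebraMap B (FractionRing B) b) = φ b := fun b =>
    IsFractionRing.lift_algebraMap hφ b
  have hψ' : ψ.comp (algebraMap B (FractionRing B)) = φ := RingHom.ext hψ
  have h0 : CharZero (FractionRing B) := ψ.charZero
  have hinj : Function.Injective (algebraMap B (FractionRing B)) :=
    IsFractionRing.injective B (FractionRing B)
  have hint : IsIntegral (FractionRing B) e := by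
    obtain ⟨p, hp0, hp⟩ := he
    refine IsAlgebraic.isIntegral ⟨p.map (algebraMap B (FractionRing B)),
      (Polynomial.map_ne_zero_iff hinj).2 hp0, ?_⟩
    rw [aeval_def, Polynomial.eval₂_map]
    change p.eval₂ (ψ.comp _) e = 0
    rw [hψ', hp]
  obtain ⟨a, b, hab⟩ : (minpoly (FractionRing B) e).Separable :=
    (minpoly.irreducible hint).separable
  obtain ⟨s₀, M, hs₀, hM⟩ := clear1 (A := B) (minpoly (FractionRing B) e)
  obtain ⟨s₁, P, hs₁, hP⟩ := clear1 (A := B) a
  obtain ⟨s₂, N, hs₂, hN⟩ := clear1 (A := B) b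
  refine ⟨M, C s₂ * P, C s₁ * N, s₀ * s₁ * s₂, mul_ne_zero (mul_ne_zero hs₀ hs₁) hs₂, ?_, ?_, ?_⟩
  · rw [← hψ', ← Polynomial.eval₂_map, hM, eval₂_mul]
    have h1 : (minpoly (FractionRing B) e).eval₂ ψ e = 0 := minpoly.aeval (FractionRing B) e
    rw [h1, mul_zero]
  · apply map_injective _ hinj
    rw [Polynomial.map_add, Polynomial.map_mul, Polynomial.map_mul, Polynomial.map_mul,
      Polynomial.map_mul, ← derivative_map, hM, hP, hN, map_C, map_C, map_C, derivative_C_mul,
      map_mul (algebraMap B (FractionRing B)), map_mul (algebraMap B (FractionRing B)), C_mul, C_mul]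
    linear_combination (C (algebraMap B (FractionRing B) s₀) * C (algebraMap B (FractionRing B) s₁) *
      C (algebraMap B (FractionRing B) s₂)) * hab
  · have h1 : M.leadingCoeff = s₀ := by
      apply hinj
      rw [← leadingCoeff_map_of_injective hinj, hM, leadingCoeff_mul, leadingCoeff_C,
        (minpoly.monic hint).leadingCoeff, mul_one]
    rw [h1, mul_assoc]
    exact dvd_mul_right _ _

/-- The element `e` is a root of a polynomial `M` with a Bezout identity for `M` and `M'`, and `D` is divisible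
by the leading coefficient. -/
def HasCert {B R : Type u} [CommRing B] [CommRing R] (φ : B →+* R) (e : R) (D : B) : Prop :=
  ∃ (M P N : B[X]), M.eval₂ φ e = 0 ∧ P * M + N * derivative M = C D ∧ M.leadingCoeff ∣ D

theorem HasCert.map {B R S : Type u} [CommRing B] [CommRing R] [CommRing S] {φ : B →+* R} {e : R}
    {D : B} (h : HasCert φ e D) (ρ : R →+* S) : HasCert (ρ.comp φ) (ρ e) D := by
  obtain ⟨M, P, N, h1, h2, h3⟩ := h
  refine ⟨M, P, N, ?_, h2, h3⟩
  rw [← Polynomial.hom_eval₂, h1, map_zero]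

theorem HasCert.of_map {B R S : Type u} [CommRing B] [CommRing R] [CommRing S] {φ : B →+* R} {e : R}
    {D : B} {ρ : R →+* S} (h : HasCert (ρ.comp φ) (ρ e) D) (hρ : Function.Injective ρ) :
    HasCert φ e D := by
  obtain ⟨M, P, N, h1, h2, h3⟩ := h
  refine ⟨M, P, N, ?_, h2, h3⟩
  apply hρ
  rw [Polynomial.hom_eval₂, h1, map_zero]

/-- An element with a certificate is algebraic over every field which contains the coefficients. -/
theorem HasCert.algebraic {B k : Type u} [CommRing B] [Field k] {φ : B →+* k} {e : k} {D : B}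
    (h : HasCert φ e D) (hD : φ D ≠ 0) {M : Type u} [Field M] [Algebra M k]
    (hM : ∀ b : B, ∃ c : M, algebraMap M k c = φ b) : IsAlgebraic M e := by
  obtain ⟨p, P, N, h1, h2, h3⟩ := h
  choose ψ hψ using hM
  have h4 : p.map φ ∈ lifts (algebraMap M k) := by
    rw [lifts_iff_coeff_lifts]
    intro n
    rw [coeff_map]
    exact ⟨ψ (p.coeff n), hψ _⟩
  obtain ⟨q, hq⟩ := (mem_lifts _).1 h4
  refine ⟨q, ?_, ?_⟩
  · rintro rfl
    rw [Polynomial.map_zero] at hq
    have h5 : φ p.leadingCoeff = 0 := by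
      have h6 := congrArg (fun r : k[X] => r.coeff p.natDegree) hq
      simp only [coeff_zero, coeff_map] at h6
      exact h6.symm
    obtain ⟨d, hd⟩ := h3
    apply hD
    rw [hd, map_mul, h5, zero_mul]
  · rw [← eval_map_algebraMap, hq, eval_map]
    exact h1

/-- Certificates for finitely many elements with one discriminant. -/
theorem exists_certs {B L : Type u} [CommRing B] [IsDomain B] [Field L] [CharZero L] (φ : B →+* L)
    (hφ : Function.Injective φ) (E : Finset L)
    (he : ∀ e ∈ E, ∃ p : B[X], p ≠ 0 ∧ p.eval₂ φ e = 0) :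
    ∃ D : B, D ≠ 0 ∧ ∀ e ∈ E, HasCert φ e D := by
  classical
  induction E using Finset.induction_on with
  | empty => exact ⟨1, one_ne_zero, fun e he => absurd he (Finset.notMem_empty e)⟩
  | insert e E heE ih =>
    obtain ⟨D, hD, h⟩ := ih fun e he' => he e (Finset.mem_insert_of_mem he')
    obtain ⟨M, P, N, D', hD', h1, h2, h3⟩ := exists_cert φ hφ (he e (Finset.mem_insert_self _ _))
    refine ⟨D * D', mul_ne_zero hD hD', fun e' he' => ?_⟩
    rcases Finset.mem_insert.1 he' with rfl | he'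
    · refine ⟨M, C D * P, C D * N, h1, ?_, h3.mul_left _⟩
      rw [C_mul, ← h2]
      ring
    · obtain ⟨M, P, N, h1, h2, h3⟩ := h e' he'
      refine ⟨M, C D' * P, C D' * N, h1, ?_, h3.mul_right _⟩
      rw [C_mul, ← h2]
      ring

/-- Certificates give regular elements which are fixed by inertia groups. -/
theorem cert_good {B k Ω : Type u} [CommRing B] [Field k] [Field Ω] [Algebra k Ω] (φ : B →+* k)
    {e : k} {D : B} (hcert : HasCert φ e D) (W : ValuationSubring Ω)
    (hφ : ∀ b : B, algebraMap k Ω (φ b) ∈ W) (hD : algebraMap k Ω (φ D) ∉ W.nonunits) :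
    algebraMap k Ω e ∈ W ∧ ∀ τ : Ω →+* Ω,
      (∀ b : B, τ (algebraMap k Ω (φ b)) = algebraMap k Ω (φ b)) →
      (∀ z ∈ W, τ z - z ∈ W.nonunits) → τ (algebraMap k Ω e) = algebraMap k Ω e := by
  obtain ⟨M, P, N, hM, hPN, hlead⟩ := hcert
  let θ : B →+* W := ((algebraMap k Ω).comp φ).codRestrict W.toSubring hφ
  have hθ : (algebraMap W Ω).comp θ = (algebraMap k Ω).comp φ := RingHom.ext fun b => rfl
  have hunit : ∀ b : B, b ∣ D → IsUnit (θ b) := by
    intro b hb
    have h1 : IsUnit (θ D) := by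
      by_contra h2
      exact hD ((ValuationSubring.mem_nonunits_iff_exists_mem_maximalIdeal).2
        ⟨(θ D).2, (IsLocalRing.mem_maximalIdeal _).2 h2⟩)
    exact isUnit_of_dvd_unit (map_dvd θ hb) h1
  obtain ⟨ℓ, hℓ⟩ := hunit _ hlead
  obtain ⟨δ, hδ⟩ := hunit D dvd_rfl
  -- the monic polynomial
  set m : W[X] := C ((ℓ⁻¹ : Wˣ) : W) * M.map θ with hm
  have hlead0 : θ M.leadingCoeff ≠ 0 := by
    rw [← hℓ]
    exact ℓ.ne_zero
  have hmonic : m.Monic := by
    rw [hm, Monic, leadingCoeff_mul, leadingCoeff_C, leadingCoeff_map_of_leadingCoeff_ne_zero _ hlead0,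
      ← hℓ, Units.inv_mul]
  have hroot : (m.map (algebraMap W Ω)).eval (algebraMap k Ω e) = 0 := by
    rw [hm, Polynomial.map_mul, Polynomial.map_map, hθ, eval_mul]
    have h1 : (M.map ((algebraMap k Ω).comp φ)).eval (algebraMap k Ω e) = 0 := by
      rw [eval_map, ← Polynomial.hom_eval₂, hM, map_zero]
    rw [h1, mul_zero]
  have hmem : algebraMap k Ω e ∈ W := mem_of_root W hmonic hroot
  refine ⟨hmem, fun τ hτ hτW => ?_⟩
  set z : W := ⟨algebraMap k Ω e, hmem⟩ with hz
  have hz0 : m.eval z = 0 := by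
    have h1 : algebraMap W Ω (m.eval z) = 0 := by
      rw [← eval₂_at_apply, ← eval_map]
      exact hroot
    exact (map_eq_zero_iff _ (IsFractionRing.injective W Ω)).1 h1
  have hMz : (M.map θ).eval z = 0 := by
    rw [hm, eval_mul, eval_C] at hz0
    exact (Units.mul_right_eq_zero _).1 hz0
  have hb : (C ((δ⁻¹ : Wˣ) : W) * N.map θ * C (ℓ : W)).eval z * m.derivative.eval z = 1 := by
    have h1 := congrArg (fun p : B[X] => (p.map θ).eval z) hPN
    simp only [Polynomial.map_add, Polynomial.map_mul, eval_add, eval_mul, hMz, mul_zero, zero_add,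
      map_C, eval_C] at h1
    rw [hm, derivative_C_mul, derivative_map, eval_mul, eval_mul, eval_mul, eval_C, eval_C, eval_C]
    calc _ = ((δ⁻¹ : Wˣ) : W) * ((ℓ : W) * ((ℓ⁻¹ : Wˣ) : W)) *
          ((N.map θ).eval z * ((derivative M).map θ).eval z) := by ring
      _ = 1 := by rw [h1, Units.mul_inv, mul_one, ← hδ, Units.inv_mul]
  refine root_fixed W z hz0 hb (τ (algebraMap k Ω e)) ?_ (hτW _ hmem)
  have h1 : (m.map (algebraMap W Ω)).map τ = m.map (algebraMap W Ω) := by
    have h2 : τ.comp ((algebraMap k Ω).comp φ) = (algebraMap k Ω).comp φ := RingHom.ext hτ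
    have hMM : (M.map θ).map (algebraMap W Ω) = M.map ((algebraMap k Ω).comp φ) := by
      rw [Polynomial.map_map, hθ]
    rw [hm, Polynomial.map_mul, Polynomial.map_mul, hMM, map_C, map_C, Polynomial.map_map, h2]
    have h3 : τ (algebraMap W Ω ((ℓ⁻¹ : Wˣ) : W)) = algebraMap W Ω ((ℓ⁻¹ : Wˣ) : W) := by
      have h4 : algebraMap W Ω ((ℓ⁻¹ : Wˣ) : W) = (algebraMap k Ω (φ M.leadingCoeff))⁻¹ := by
        apply eq_inv_of_mul_eq_one_left
        have h5 : algebraMap k Ω (φ M.leadingCoeff) = algebraMap W Ω (ℓ : W) := by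
          rw [hℓ]; rfl
        rw [h5, ← map_mul, Units.inv_mul, map_one]
      rw [h4, map_inv₀, hτ]
    rw [h3]
  rw [← h1, eval_map, eval₂_at_apply, hroot, map_zero]

end Pool.Agent.TWH
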