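import Pool.Agent.Helper37.TWH.A2
import Pool.Agent.SC.LinDisj

/-!
# Project TWH, block A3: a generic member of the linear system
-/

universe u

set_option linter.unusedSectionVars false

namespace Pool.Agent.TWH

open Polynomial Pool.Agent.LT Pool.Agent.GC

/-- the variables -/
noncomputable def xx (k₀ L : Type u) [Field k₀] [Field L] {ι : Type} [Algebra (MvPolynomial ι k₀) L]
    (e : ι) : L :=
  algebraMap (MvPolynomial ι k₀) L (MvPolynomial.X e)

variable {F₁ k₀ L : Type u} [Field F₁] [CharZero F₁] [Field k₀] [Algebra F₁ k₀] {ι : Type}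
  [Field L] [Algebra (MvPolynomial ι k₀) L] [IsFractionRing (MvPolynomial ι k₀) L] [Algebra k₀ L]
  [IsScalarTower k₀ (MvPolynomial ι k₀) L] [Algebra F₁ L] [IsScalarTower F₁ k₀ L]

variable (k₀ L ι) in
theorem algInd_xx : AlgebraicIndependent k₀ (xx k₀ L : ι → L) := by
  have h1 := MvPolynomial.algebraicIndependent_X ι k₀
  exact h1.map' (f := IsScalarTower.toAlgHom k₀ (MvPolynomial ι k₀) L)
    (IsFractionRing.injective (MvPolynomial ι k₀) L)

/-- `F₁(X)` -/
noncomputable abbrev QX (F₁ k₀ L : Type u) [Field F₁] [Field k₀] [Field L] (ι : Type)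
    [Algebra (MvPolynomial ι k₀) L] [Algebra F₁ L] : IntermediateField F₁ L :=
  IntermediateField.adjoin F₁ (Set.range (xx k₀ L : ι → L))

/-- **(a)** -/
theorem algInd_tu {t u : k₀} (htu : AlgebraicIndependent F₁ ![t, u]) :
    AlgebraicIndependent (QX F₁ k₀ L ι) ![algebraMap k₀ (L) t, algebraMap k₀ (L) u] := by
  have h1 := htu.sumElim_comp (algInd_xx k₀ L ι)
  have h2 : (algebraMap k₀ (L)) ∘ ![t, u] =
      ![algebraMap k₀ (L) t, algebraMap k₀ (L) u] := by
    ext i
    fin_cases i <;> rfl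
  rw [h2] at h1
  have h3 : AlgebraicIndependent F₁ (Sum.elim
      ![algebraMap k₀ (L) t, algebraMap k₀ (L) u] (xx k₀ L : ι → L)) := by
    refine (algebraicIndependent_equiv' (Equiv.sumComm _ _) ?_).1 h1
    ext i
    rcases i with i | i <;> rfl
  exact IntermediateField.algebraicIndependent_adjoin_iff.2 (AlgebraicIndependent.sumElim_iff.1 h3).2

/-- the translation `X_i ↦ X_i + 1` on polynomials -/
noncomputable def shiftP (k₀ : Type u) [Field k₀] {ι : Type} [DecidableEq ι] (i : ι) (c : k₀) :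
    MvPolynomial ι k₀ →ₐ[k₀] MvPolynomial ι k₀ :=
  MvPolynomial.aeval fun e => MvPolynomial.X e + MvPolynomial.C (if e = i then c else 0)

theorem shiftP_comp (k₀ : Type u) [Field k₀] {ι : Type} [DecidableEq ι] (i : ι) (c d : k₀)
    (h : c + d = 0) : (shiftP k₀ i c).comp (shiftP k₀ i d) = AlgHom.id k₀ _ := by
  refine MvPolynomial.algHom_ext fun e => ?_
  unfold shiftP
  rw [AlgHom.comp_apply, MvPolynomial.aeval_X, map_add, MvPolynomial.aeval_X, MvPolynomial.aeval_C,
    MvPolynomial.algebraMap_eq, add_assoc, ← map_add]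
  split_ifs
  · rw [h, map_zero, add_zero]; rfl
  · rw [add_zero, map_zero, add_zero]; rfl

/-- the translation `X_i ↦ X_i + 1` on rational functions -/
noncomputable def shiftK (k₀ L : Type u) [Field k₀] [Field L] {ι : Type} [DecidableEq ι]
    [Algebra (MvPolynomial ι k₀) L] [IsFractionRing (MvPolynomial ι k₀) L] [Algebra k₀ L]
    [IsScalarTower k₀ (MvPolynomial ι k₀) L] (i : ι) : L ≃ₐ[k₀] L :=
  IsFractionRing.algEquivOfAlgEquiv (AlgEquiv.ofAlgHom (shiftP k₀ i 1) (shiftP k₀ i (-1))
    (shiftP_comp k₀ i 1 (-1) (by ring)) (shiftP_comp k₀ i (-1) 1 (by ring)))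

theorem shiftK_xx [DecidableEq ι] (i e : ι) :
    shiftK k₀ L i (xx k₀ L e) = xx k₀ L e + if e = i then 1 else 0 := by
  unfold shiftK xx
  rw [IsFractionRing.algEquivOfAlgEquiv_algebraMap]
  change algebraMap _ _ (shiftP k₀ i 1 (MvPolynomial.X e)) = _
  unfold shiftP
  rw [MvPolynomial.aeval_X, map_add]
  congr 1
  split_ifs
  · rw [MvPolynomial.C_1, map_one]
  · rw [MvPolynomial.C_0, map_zero]

/-- `T₀ = ∑ X_e w_e` (sum over a set of indices) -/
noncomputable def TX (L : Type u) {k₀ : Type u} [Field k₀] [Field L] {ι : Type}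
    [Algebra (MvPolynomial ι k₀) L] [Algebra k₀ L] (s : Finset ι) (w : ι → k₀) : L :=
  ∑ e ∈ s, xx k₀ L e * algebraMap k₀ (L) (w e)

theorem shiftK_TX [DecidableEq ι] {i : ι} {s : Finset ι}
    (hi : i ∈ s) (w : ι → k₀) :
    shiftK k₀ L i (TX L s w) = TX L s w + algebraMap k₀ (L) (w i) := by
  unfold TX
  rw [map_sum]
  have h1 : ∀ e ∈ s, shiftK k₀ L i (xx k₀ L e * algebraMap k₀ (L) (w e)) =
      xx k₀ L e * algebraMap k₀ (L) (w e) +
        if e = i then algebraMap k₀ (L) (w i) else 0 := by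
    intro e _
    rw [map_mul, shiftK_xx, AlgEquiv.commutes]
    split_ifs with h
    · rw [h]; ring
    · ring
  rw [Finset.sum_congr rfl h1, Finset.sum_add_distrib, Finset.sum_ite_eq' s i, if_pos hi]

/-- **(b)** -/
theorem transc_TX [DecidableEq ι] {t u : k₀} (htu : AlgebraicIndependent F₁ ![t, u]) {i : ι}
    {s : Finset ι} (hi : i ∈ s) {w : ι → k₀} (hw : w i = t) :
    Transcendental (IntermediateField.adjoin (QX F₁ k₀ L ι) {algebraMap k₀ (L) u})
      (TX L s w) := by
  set K := IntermediateField.adjoin (QX F₁ k₀ L ι) {algebraMap k₀ (L) u} with hK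
  intro halg
  -- `K` is stable under the translation
  have hstab : ∀ x ∈ K, shiftK k₀ L i x ∈ K := by
    have h1 : K.restrictScalars F₁ ≤ (K.restrictScalars F₁).comap
        ((shiftK k₀ L i).restrictScalars F₁).toAlgHom := by
      have h2 : K.restrictScalars F₁ = IntermediateField.adjoin F₁
          (Set.range (xx k₀ L : ι → L) ∪ {algebraMap k₀ (L) u}) := by
        rw [hK, IntermediateField.adjoin_adjoin_left]
      have h3 : ∀ e, xx k₀ L e ∈ K.restrictScalars F₁ := fun e => by
        rw [h2]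
        exact IntermediateField.subset_adjoin _ _ (Or.inl ⟨e, rfl⟩)
      rw [h2, IntermediateField.adjoin_le_iff, ← h2]
      rintro x (⟨e, rfl⟩ | hx)
      · change shiftK k₀ L i (xx k₀ L e) ∈ K.restrictScalars F₁
        rw [shiftK_xx]
        refine add_mem (h3 e) ?_
        split_ifs
        · exact one_mem _
        · exact zero_mem _
      · rw [Set.mem_singleton_iff.1 hx]
        change shiftK k₀ L i (algebraMap k₀ (L) u) ∈ K.restrictScalars F₁
        rw [AlgEquiv.commutes, h2]
        exact IntermediateField.subset_adjoin _ _ (Or.inr rfl)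
    exact fun x hx => h1 hx
  let θ : K →+* K := (((shiftK k₀ L i).toRingEquiv.toRingHom).comp (algebraMap K (L))).codRestrict
    K.toSubfield (fun x => hstab _ x.2)
  have h1 : IsAlgebraic K (shiftK k₀ L i (TX L s w)) := by
    obtain ⟨p, hp0, hp⟩ := halg
    refine ⟨p.map θ, (Polynomial.map_ne_zero_iff θ.injective).2 hp0, ?_⟩
    rw [aeval_def, Polynomial.eval₂_map]
    have h2 : (algebraMap K (L)).comp θ =
        (shiftK k₀ L i).toRingEquiv.toRingHom.comp (algebraMap K (L)) := RingHom.ext fun x => rfl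
    rw [h2]
    have h3 : p.eval₂ ((shiftK k₀ L i).toRingEquiv.toRingHom.comp (algebraMap K (L)))
        ((shiftK k₀ L i).toRingEquiv.toRingHom (TX L s w)) = 0 := by
      rw [← Polynomial.hom_eval₂, ← aeval_def, hp, map_zero]
    exact h3
  rw [shiftK_TX hi] at h1
  have h2 := h1.sub halg
  rw [add_sub_cancel_left, hw] at h2
  exact transc_t (algInd_tu (L := L) (ι := ι) htu) h2

/-- **(c)** -/
theorem algebraic_t {t u : k₀}
    (hk : ∀ z : k₀, IsAlgebraic (IntermediateField.adjoin F₁ {t, u}) z) :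
    Algebra.IsAlgebraic (IntermediateField.adjoin (IntermediateField.adjoin (QX F₁ k₀ L ι)
      {algebraMap k₀ (L) u}) {algebraMap k₀ (L) t}) (L) := by
  set K := IntermediateField.adjoin (QX F₁ k₀ L ι) {algebraMap k₀ (L) u} with hK
  set M := IntermediateField.adjoin K {algebraMap k₀ (L) t} with hM
  have hKM : ∀ x ∈ K, x ∈ M := fun x hx => M.algebraMap_mem ⟨x, hx⟩
  have hQM : ∀ x ∈ QX F₁ k₀ L ι, x ∈ M := fun x hx => hKM x (K.algebraMap_mem ⟨x, hx⟩)
  have hFM : ∀ x ∈ IntermediateField.adjoin F₁ {t, u}, algebraMap k₀ (L) x ∈ M := by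
    let N : IntermediateField F₁ k₀ :=
      { M.toSubfield.comap (algebraMap k₀ (L)) with
        algebraMap_mem' := fun x => hQM _ (by
          rw [← IsScalarTower.algebraMap_apply F₁ k₀ (L)]
          exact IntermediateField.algebraMap_mem _ x) }
    have h1 : IntermediateField.adjoin F₁ {t, u} ≤ N := by
      rw [IntermediateField.adjoin_le_iff]
      rintro z (hz | hz)
      · rw [hz]
        exact IntermediateField.mem_adjoin_simple_self _ _
      · rw [Set.mem_singleton_iff.1 hz]
        exact hKM _ (IntermediateField.mem_adjoin_simple_self _ _)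
    exact fun x hx => h1 hx
  have hk' : ∀ z : k₀, IsAlgebraic M (algebraMap k₀ (L) z) := by
    intro z
    obtain ⟨p, hp0, hp⟩ := hk z
    let f : IntermediateField.adjoin F₁ {t, u} →+* M :=
      ((algebraMap k₀ (L)).comp (algebraMap (IntermediateField.adjoin F₁ {t, u}) k₀)).codRestrict
        M.toSubfield (fun x => hFM x x.2)
    refine ⟨p.map f, (Polynomial.map_ne_zero_iff f.injective).2 hp0, ?_⟩
    rw [aeval_def, Polynomial.eval₂_map]
    have h2 : (algebraMap M (L)).comp f =
        (algebraMap k₀ (L)).comp (algebraMap (IntermediateField.adjoin F₁ {t, u}) k₀) :=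
      RingHom.ext fun x => rfl
    rw [h2, ← Polynomial.hom_eval₂, ← aeval_def, hp, map_zero]
  have hpoly : ∀ p : MvPolynomial ι k₀,
      IsAlgebraic M (algebraMap (MvPolynomial ι k₀) (L) p) := by
    intro p
    induction p using MvPolynomial.induction_on with
    | C a =>
      have h1 := hk' a
      rwa [IsScalarTower.algebraMap_apply k₀ (MvPolynomial ι k₀) L] at h1
    | add p q hp hq => rw [map_add]; exact hp.add hq
    | mul_X p e hp =>
      rw [map_mul]
      refine hp.mul ?_
      have h1 : xx k₀ L e ∈ M := hQM _ (IntermediateField.subset_adjoin _ _ ⟨e, rfl⟩)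
      exact isAlgebraic_algebraMap (⟨xx k₀ L e, h1⟩ : M)
  constructor
  intro x
  obtain ⟨p, q, hq, rfl⟩ := IsFractionRing.div_surjective (A := MvPolynomial ι k₀) x
  rw [div_eq_mul_inv]
  exact (hpoly p).mul (hpoly q).inv

/-- **(d)** everything is algebraic over `F₁(X)(T₀, u)` -/
theorem algebraic_TX [DecidableEq ι] {t u : k₀} (htu : AlgebraicIndependent F₁ ![t, u])
    (hk : ∀ z : k₀, IsAlgebraic (IntermediateField.adjoin F₁ {t, u}) z) {i : ι}
    {s : Finset ι} (hi : i ∈ s) {w : ι → k₀} (hw : w i = t) :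
    Algebra.IsAlgebraic (IntermediateField.adjoin (IntermediateField.adjoin (QX F₁ k₀ L ι)
      {algebraMap k₀ (L) u}) {TX L s w}) (L) :=
  SC.isAlgebraic_exchange (algebraic_t hk) (transc_TX htu hi hw)

end Pool.Agent.TWH
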