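import Pool.Agent.Helper37.TWH.A3
import Pool.Agent.Helper13.LG.Step

/-!
# Project TWH, block A4: the universal certificates
-/

universe u

set_option linter.unusedSectionVars false

namespace Pool.Agent.TWH

open Polynomial Pool.Agent.LT Pool.Agent.GC Pool.Agent.SC

/-- lifting algebraic relations -/
theorem exists_poly_of_algebraic {B L S : Type*} [CommRing B] [Field L] (φ : B →+* L) [CommRing S]
    [Algebra S L] (hS : Function.Injective (algebraMap S L))
    (h : ∀ s : S, ∃ b, φ b = algebraMap S L s) {x : L} (hx : IsAlgebraic S x) :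
    ∃ p : B[X], p ≠ 0 ∧ p.eval₂ φ x = 0 := by
  obtain ⟨q, hq0, hq⟩ := hx
  have h1 : q.map (algebraMap S L) ∈ lifts φ := by
    rw [lifts_iff_coeff_lifts]
    intro n
    rw [coeff_map]
    obtain ⟨b, hb⟩ := h (q.coeff n)
    exact ⟨b, hb⟩
  obtain ⟨p, hp⟩ := (mem_lifts _).1 h1
  refine ⟨p, ?_, ?_⟩
  · rintro rfl
    rw [Polynomial.map_zero] at hp
    exact hq0 ((Polynomial.map_eq_zero_iff hS).1 hp.symm)
  · rw [← eval_map, hp, eval_map]
    exact hq

theorem adj3 {F L : Type u} [Field F] [Field L] [Algebra F L] (A : Set L) (a b x : L)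
    (h : IsAlgebraic (IntermediateField.adjoin (IntermediateField.adjoin (IntermediateField.adjoin F A)
      {a}) {b}) x) : IsAlgebraic (IntermediateField.adjoin F ((A ∪ {a}) ∪ {b})) x := by
  set N := (IntermediateField.adjoin F ((A ∪ {a}) ∪ {b})).toSubfield with hN
  have hQ : ∀ z ∈ IntermediateField.adjoin F A, z ∈ N := by
    have h3 : IntermediateField.adjoin F A ≤ IntermediateField.adjoin F ((A ∪ {a}) ∪ {b}) :=
      IntermediateField.adjoin.mono _ _ _ fun z hz => Or.inl (Or.inl hz)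
    exact fun z hz => h3 hz
  have hK : ∀ z ∈ IntermediateField.adjoin (IntermediateField.adjoin F A) {a}, z ∈ N := by
    have h3 : IntermediateField.adjoin (IntermediateField.adjoin F A) {a} ≤
        Subfield.toIntermediateField N (fun z => hQ _ z.2) := by
      rw [IntermediateField.adjoin_le_iff]
      intro z hz
      rw [Set.mem_singleton_iff.1 hz]
      exact IntermediateField.subset_adjoin F _ (Or.inl (Or.inr rfl))
    exact fun z hz => h3 hz
  have hM : ∀ z ∈ IntermediateField.adjoin (IntermediateField.adjoin (IntermediateField.adjoin F A)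
      {a}) {b}, z ∈ N := by
    have h3 : IntermediateField.adjoin (IntermediateField.adjoin (IntermediateField.adjoin F A)
      {a}) {b} ≤ Subfield.toIntermediateField N (fun z => hK _ z.2) := by
      rw [IntermediateField.adjoin_le_iff]
      intro z hz
      rw [Set.mem_singleton_iff.1 hz]
      exact IntermediateField.subset_adjoin F _ (Or.inr rfl)
    exact fun z hz => h3 hz
  exact isAlgebraic_of_range_le (fun a => ⟨⟨_, hM _ a.2⟩, rfl⟩) h

/-- The substitution of polynomials in two variables over a ring. -/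
theorem ringHom_ext₂ {A S : Type*} [CommRing A] [Semiring S] {f g : A[X][X] →+* S}
    (h1 : ∀ c : A, f (C (C c)) = g (C (C c))) (h2 : f (C X) = g (C X)) (h3 : f X = g X) :
    f = g := by
  refine Polynomial.ringHom_ext (fun p => ?_) h3
  have h4 : f.comp C = g.comp C := Polynomial.ringHom_ext h1 h2
  exact congrArg (fun φ : A[X] →+* S => φ p) h4

/-- `∑_{e ∈ s} X_e w_e` -/
noncomputable def TP {k₀ : Type u} [Field k₀] {ι : Type} (s : Finset ι) (w : ι → k₀) :
    MvPolynomial ι k₀ :=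
  ∑ e ∈ s, MvPolynomial.X e * MvPolynomial.C (w e)

/-- The homomorphism `F₁[X_e][T][U] → k₀[X_e]`, `T ↦ ∑_{e ∈ s} X_e w_e`, `U ↦ u`. -/
noncomputable def phi (F₁ : Type u) {k₀ : Type u} [Field F₁] [Field k₀] [Algebra F₁ k₀] {ι : Type}
    (s : Finset ι) (w : ι → k₀) (u : k₀) :
    (MvPolynomial ι F₁)[X][X] →+* MvPolynomial ι k₀ :=
  eval₂RingHom (eval₂RingHom (MvPolynomial.map (algebraMap F₁ k₀)) (TP s w)) (MvPolynomial.C u)

section phi

variable {F₁ k₀ : Type u} [Field F₁] [Field k₀] [Algebra F₁ k₀] {ι : Type}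
    (s : Finset ι) (w : ι → k₀) (u : k₀)

theorem phi_CC (c : MvPolynomial ι F₁) :
    phi F₁ s w u (C (C c)) = MvPolynomial.map (algebraMap F₁ k₀) c := by
  unfold phi
  rw [coe_eval₂RingHom, eval₂_C, coe_eval₂RingHom, eval₂_C]

theorem phi_CX : phi F₁ s w u (C X) = TP s w := by
  unfold phi
  rw [coe_eval₂RingHom, eval₂_C, coe_eval₂RingHom, eval₂_X]

theorem phi_X : phi F₁ s w u X = MvPolynomial.C u := by
  unfold phi
  rw [coe_eval₂RingHom, eval₂_X]

end phi

section univ

variable {F₁ k₀ L : Type u} [Field F₁] [CharZero F₁] [Field k₀] [Algebra F₁ k₀] {ι : Type}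
  [Field L] [Algebra (MvPolynomial ι k₀) L] [IsFractionRing (MvPolynomial ι k₀) L] [Algebra k₀ L]
  [IsScalarTower k₀ (MvPolynomial ι k₀) L] [Algebra F₁ L] [IsScalarTower F₁ k₀ L]

theorem algebraMap_TP (s : Finset ι) (w : ι → k₀) :
    algebraMap (MvPolynomial ι k₀) L (TP s w) = TX L s w := by
  unfold TP TX xx
  rw [map_sum]
  refine Finset.sum_congr rfl fun e _ => ?_
  rw [map_mul]
  congr 1
  exact (IsScalarTower.algebraMap_apply k₀ (MvPolynomial ι k₀) L (w e)).symm

theorem algebraMap_phi_CC (s : Finset ι) (w : ι → k₀) (u : k₀) (c : MvPolynomial ι F₁) :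
    algebraMap (MvPolynomial ι k₀) L (phi F₁ s w u (C (C c))) =
      MvPolynomial.aeval (xx k₀ L : ι → L) c := by
  rw [phi_CC]
  induction c using MvPolynomial.induction_on with
  | C a =>
    rw [MvPolynomial.map_C, MvPolynomial.aeval_C, IsScalarTower.algebraMap_apply F₁ k₀ L]
    exact (IsScalarTower.algebraMap_apply k₀ (MvPolynomial ι k₀) L _).symm
  | add p q hp hq => rw [map_add, map_add, map_add, hp, hq]
  | mul_X p e hp =>
    rw [map_mul, map_mul, map_mul, hp, MvPolynomial.map_X, MvPolynomial.aeval_X]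
    rfl

/-- `F₁[X] → F₁(X)` -/
noncomputable def iQ (F₁ k₀ L : Type u) [Field F₁] [Field k₀] [Field L] (ι : Type)
    [Algebra (MvPolynomial ι k₀) L] [Algebra F₁ L] : MvPolynomial ι F₁ →+* QX F₁ k₀ L ι :=
  (MvPolynomial.aeval fun e => (⟨xx k₀ L e, IntermediateField.subset_adjoin _ _ ⟨e, rfl⟩⟩ :
    QX F₁ k₀ L ι)).toRingHom

theorem coe_iQ (c : MvPolynomial ι F₁) :
    ((iQ F₁ k₀ L ι c : QX F₁ k₀ L ι) : L) = MvPolynomial.aeval (xx k₀ L : ι → L) c := by
  have h1 : ((QX F₁ k₀ L ι).val).comp (MvPolynomial.aeval fun e =>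
      (⟨xx k₀ L e, IntermediateField.subset_adjoin _ _ ⟨e, rfl⟩⟩ : QX F₁ k₀ L ι)) =
      (MvPolynomial.aeval (xx k₀ L : ι → L) : MvPolynomial ι F₁ →ₐ[F₁] L) := by
    refine MvPolynomial.algHom_ext fun e => ?_
    rw [AlgHom.comp_apply, MvPolynomial.aeval_X, MvPolynomial.aeval_X]
    rfl
  exact congrArg (fun f : MvPolynomial ι F₁ →ₐ[F₁] L => f c) h1

theorem iQ_injective : Function.Injective (iQ F₁ k₀ L ι) := by
  intro c c' h
  have h1 : AlgebraicIndependent F₁ (xx k₀ L : ι → L) :=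
    (algInd_xx k₀ L ι).restrictScalars (algebraMap F₁ k₀).injective
  apply h1
  change MvPolynomial.aeval (xx k₀ L : ι → L) c = MvPolynomial.aeval (xx k₀ L : ι → L) c'
  rw [← coe_iQ, ← coe_iQ, h]

theorem phi_eq (s : Finset ι) (w : ι → k₀) (u : k₀) :
    (algebraMap (MvPolynomial ι k₀) L).comp (phi F₁ s w u) =
      (ev (QX F₁ k₀ L ι) (TX L s w) (algebraMap k₀ L u)).comp
        (mapRingHom (mapRingHom (iQ F₁ k₀ L ι))) := by
  refine ringHom_ext₂ (fun c => ?_) ?_ ?_
  · rw [RingHom.comp_apply, RingHom.comp_apply, algebraMap_phi_CC, coe_mapRingHom, map_C,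
      coe_mapRingHom, map_C, ev_C, aeval_C, ← coe_iQ]
    rfl
  · rw [RingHom.comp_apply, RingHom.comp_apply, phi_CX, coe_mapRingHom, map_C, coe_mapRingHom,
      map_X, ev_C, aeval_X, algebraMap_TP]
  · rw [RingHom.comp_apply, RingHom.comp_apply, phi_X, coe_mapRingHom, map_X, ev_X]
    exact (IsScalarTower.algebraMap_apply k₀ (MvPolynomial ι k₀) L _).symm

variable [DecidableEq ι] {t u : k₀} {i : ι} {s : Finset ι} {w : ι → k₀}

theorem phi_injective (L : Type u) [Field L] [Algebra (MvPolynomial ι k₀) L]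
    [IsFractionRing (MvPolynomial ι k₀) L] [Algebra k₀ L]
    [IsScalarTower k₀ (MvPolynomial ι k₀) L] [Algebra F₁ L] [IsScalarTower F₁ k₀ L]
    (htu : AlgebraicIndependent F₁ ![t, u]) (hi : i ∈ s) (hw : w i = t) :
    Function.Injective ((algebraMap (MvPolynomial ι k₀) L).comp (phi F₁ s w u)) := by
  rw [phi_eq]
  have h1 : AlgebraicIndependent (QX F₁ k₀ L ι) ![TX L s w, algebraMap k₀ L u] :=
    algInd_of (transc_F_u (algInd_tu (L := L) (ι := ι) htu)) (transc_TX htu hi hw)
  exact (ev_injective h1).comp (map_injective _ (map_injective _ iQ_injective))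

theorem phi_algebraic (L : Type u) [Field L] [Algebra (MvPolynomial ι k₀) L]
    [IsFractionRing (MvPolynomial ι k₀) L] [Algebra k₀ L]
    [IsScalarTower k₀ (MvPolynomial ι k₀) L] [Algebra F₁ L] [IsScalarTower F₁ k₀ L]
    (htu : AlgebraicIndependent F₁ ![t, u]) (hi : i ∈ s) (hw : w i = t)
    (hk : ∀ z : k₀, IsAlgebraic (IntermediateField.adjoin F₁ {t, u}) z) (x : L) :
    ∃ p : (MvPolynomial ι F₁)[X][X][X], p ≠ 0 ∧
      p.eval₂ ((algebraMap (MvPolynomial ι k₀) L).comp (phi F₁ s w u)) x = 0 := by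
  have h1 := (algebraic_TX (L := L) htu hk hi hw).isAlgebraic x
  set S : Set L := (Set.range (xx k₀ L : ι → L) ∪ {algebraMap k₀ L u}) ∪ {TX L s w} with hS
  have h2 : IsAlgebraic (IntermediateField.adjoin F₁ S) x := by
    exact adj3 _ _ _ x h1
  have h3 : IsAlgebraic (Algebra.adjoin F₁ S) x := IntermediateField.isAlgebraic_adjoin_iff.1 h2
  refine exists_poly_of_algebraic (B := (MvPolynomial ι F₁)[X][X])
    ((algebraMap (MvPolynomial ι k₀) L).comp (phi F₁ s w u)) (S := Algebra.adjoin F₁ S)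
    Subtype.val_injective ?_ h3
  rintro ⟨z, hz⟩
  change ∃ b, _ = z
  have h4 : Algebra.adjoin F₁ S ≤ { ((algebraMap (MvPolynomial ι k₀) L).comp
      (phi F₁ s w u)).range with
      algebraMap_mem' := fun c => ⟨C (C (MvPolynomial.C c)), by
        rw [RingHom.comp_apply, algebraMap_phi_CC, MvPolynomial.aeval_C]⟩ } := by
    rw [Algebra.adjoin_le_iff]
    rintro z ((⟨e, rfl⟩ | hz) | hz)
    · exact ⟨C (C (MvPolynomial.X e)), by
        rw [RingHom.comp_apply, algebraMap_phi_CC, MvPolynomial.aeval_X]⟩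
    · rw [Set.mem_singleton_iff.1 hz]
      refine ⟨X, ?_⟩
      rw [RingHom.comp_apply, phi_X]
      exact (IsScalarTower.algebraMap_apply k₀ (MvPolynomial ι k₀) L _).symm
    · rw [Set.mem_singleton_iff.1 hz]
      exact ⟨C X, by rw [RingHom.comp_apply, phi_CX, algebraMap_TP]⟩
  exact h4 hz

end univ

end Pool.Agent.TWH
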