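import Pool.Agent.Helper37.TWH.A4
import Pool.Agent.Helper13.LG.G6

/-!
# Project TWH, block A5: good discriminants for all members of a linear system outside a hypersurface
-/

universe u

set_option linter.unusedSectionVars false

namespace Pool.Agent.TWH

open Polynomial Pool.Agent.LT Pool.Agent.GC Pool.Agent.SC

/-- `shear` over a ring -/
noncomputable def shearR {A : Type*} [CommRing A] (α β : A) : A[X][X] →+* A[X][X] :=
  eval₂RingHom (eval₂RingHom (C.comp C) (C X + C (C α) * X + C (C β))) X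

section shearR

variable {A : Type*} [CommRing A]

theorem shearR_CC (α β c : A) : shearR α β (C (C c)) = C (C c) := by
  unfold shearR
  rw [coe_eval₂RingHom, eval₂_C, coe_eval₂RingHom, eval₂_C]
  rfl

theorem shearR_CX (α β : A) : shearR α β (C X) = C X + C (C α) * X + C (C β) := by
  unfold shearR
  rw [coe_eval₂RingHom, eval₂_C, coe_eval₂RingHom, eval₂_X]

theorem shearR_X (α β : A) : shearR α β X = X := by
  unfold shearR
  rw [coe_eval₂RingHom, eval₂_X]

theorem map_shearR {K : Type u} [Field K] (f : A →+* K) (α β : A) (D : A[X][X]) :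
    (shearR α β D).map (mapRingHom f) = shear (f α) (f β) (D.map (mapRingHom f)) := by
  have h1 : (mapRingHom (mapRingHom f)).comp (shearR α β) =
      (shear (f α) (f β)).comp (mapRingHom (mapRingHom f)) := by
    refine ringHom_ext₂ (fun c => ?_) ?_ ?_
    · rw [RingHom.comp_apply, RingHom.comp_apply, shearR_CC, coe_mapRingHom, map_C, coe_mapRingHom,
        map_C, shear_CC_27]
    · rw [RingHom.comp_apply, RingHom.comp_apply, shearR_CX, coe_mapRingHom, map_C, coe_mapRingHom,
        map_X, shear_CX_27, Polynomial.map_add, Polynomial.map_add, Polynomial.map_mul, map_C, map_C,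
        map_C, map_X, coe_mapRingHom, map_X, map_C, map_C]
    · rw [RingHom.comp_apply, RingHom.comp_apply, shearR_X, coe_mapRingHom, map_X, shear_X_27]
  exact congrArg (fun φ : A[X][X] →+* K[X][X] => φ D) h1

end shearR

theorem aeval_shiftP {F₁ F' : Type u} [Field F₁] [Field F'] [Algebra F₁ F'] {ι : Type}
    [DecidableEq ι] (j : ι) (c : F₁) (a : ι → F') (p : MvPolynomial ι F₁) :
    MvPolynomial.aeval a (shiftP F₁ j c p) =
      MvPolynomial.aeval (fun e => a e + if e = j then algebraMap F₁ F' c else 0) p := by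
  have h1 : (MvPolynomial.aeval a).comp (shiftP F₁ j c) =
      (MvPolynomial.aeval (fun e => a e + if e = j then algebraMap F₁ F' c else 0) :
        MvPolynomial ι F₁ →ₐ[F₁] F') := by
    refine MvPolynomial.algHom_ext fun e => ?_
    unfold shiftP
    rw [AlgHom.comp_apply, MvPolynomial.aeval_X, MvPolynomial.aeval_X, map_add,
      MvPolynomial.aeval_X, MvPolynomial.aeval_C]
    congr 1
    split_ifs
    · rfl
    · exact map_zero _
  exact congrArg (fun f : MvPolynomial ι F₁ →ₐ[F₁] F' => f p) h1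

theorem shiftP_ne_zero {F₁ : Type u} [Field F₁] {ι : Type} [DecidableEq ι] (j : ι) (c : F₁)
    {p : MvPolynomial ι F₁} (hp : p ≠ 0) : shiftP F₁ j c p ≠ 0 := by
  intro h
  apply hp
  have h1 := congrArg (fun f : MvPolynomial ι F₁ →ₐ[F₁] MvPolynomial ι F₁ => f p)
    (shiftP_comp F₁ j (-c) c (by ring))
  change shiftP F₁ j (-c) (shiftP F₁ j c p) = p at h1
  rw [← h1, h, map_zero]

/-- The discriminants are good for general values of the coefficients. -/
theorem exists_spread {F₁ : Type u} [Field F₁] [CharZero F₁] {ι : Type} [DecidableEq ι]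
    {D : (MvPolynomial ι F₁)[X][X]} (hD : D ≠ 0) {j l : ι} (hjl : j ≠ l) :
    ∃ Ψ : MvPolynomial ι F₁, Ψ ≠ 0 ∧ ∃ (c c' : F₁) (Δ : (MvPolynomial ι F₁)[X][X]) (N : ℕ),
      ∀ (F' : Type u) [Field F'] [Algebra F₁ F'] (a : ι → F'), MvPolynomial.aeval a Ψ ≠ 0 →
        ∀ f : MvPolynomial ι F₁ →ₐ[F₁] F', (f = MvPolynomial.aeval (fun e => (a e +
          if e = j then algebraMap F₁ F' c else 0) + if e = l then algebraMap F₁ F' c' else 0)) →
        GoodDisc (Δ.map (mapRingHom f.toRingHom)) ∧
          shear (-a j) (-a l) (D.map (mapRingHom f.toRingHom)) ∣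
            (Δ.map (mapRingHom f.toRingHom)) ^ N := by
  set Q := FractionRing (MvPolynomial ι F₁) with hQ
  have hinj : Function.Injective (algebraMap (MvPolynomial ι F₁) Q) := IsFractionRing.injective _ _
  have hQ0 : CharZero Q := by
    have h1 : Function.Injective ((algebraMap (MvPolynomial ι F₁) Q).comp MvPolynomial.C) :=
      hinj.comp (MvPolynomial.C_injective _ _)
    exact (RingHom.charZero_iff h1).1 inferInstance
  have hD' : D.map (mapRingHom (algebraMap (MvPolynomial ι F₁) Q)) ≠ 0 :=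
    (Polynomial.map_ne_zero_iff (map_injective _ hinj)).2 hD
  obtain ⟨S, hS⟩ := exists_goodDisc hD'
  have key : ∀ (e : ι), Function.Injective (fun c : F₁ => algebraMap (MvPolynomial ι F₁) Q
      (-MvPolynomial.X e + MvPolynomial.C c)) := by
    intro e c c' h
    have h1 := hinj h
    rw [add_right_inj] at h1
    exact MvPolynomial.C_injective _ _ h1
  obtain ⟨c, hc⟩ := Infinite.exists_notMem_finset (S.preimage _ (key j).injOn)
  rw [Finset.mem_preimage] at hc
  obtain ⟨T, hT⟩ := hS _ hc
  obtain ⟨c', hc'⟩ := Infinite.exists_notMem_finset (T.preimage _ (key l).injOn)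
  rw [Finset.mem_preimage] at hc'
  obtain ⟨Δ, N, hΔ, hdvd⟩ := hT _ hc'
  rw [← map_shearR] at hdvd
  obtain ⟨r, Δ', hr, hspec⟩ := goodDisc_spread hΔ hdvd
  refine ⟨shiftP F₁ j c (shiftP F₁ l c' r), shiftP_ne_zero _ _ (shiftP_ne_zero _ _ hr), c, c', Δ', N,
    ?_⟩
  intro F' _ _ a ha f hf
  rw [aeval_shiftP, aeval_shiftP, ← hf] at ha
  obtain ⟨h1, h2⟩ := hspec F' f.toRingHom ha
  refine ⟨h1, ?_⟩
  rw [map_shearR] at h2
  have h3 : f.toRingHom (-MvPolynomial.X j + MvPolynomial.C c) = -a j := by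
    change f (-MvPolynomial.X j + MvPolynomial.C c) = -a j
    rw [hf, map_add, map_neg, MvPolynomial.aeval_X, MvPolynomial.aeval_C, if_pos rfl, if_neg hjl]
    ring
  have h4 : f.toRingHom (-MvPolynomial.X l + MvPolynomial.C c') = -a l := by
    change f (-MvPolynomial.X l + MvPolynomial.C c') = -a l
    rw [hf, map_add, map_neg, MvPolynomial.aeval_X, MvPolynomial.aeval_C, if_pos rfl,
      if_neg hjl.symm]
    ring
  rw [h3, h4] at h2
  exact h2

/-- the universal certificates -/
theorem exists_univ_certs' (L : Type u) {F₁ k₀ : Type u} [Field F₁] [CharZero F₁] [Field k₀]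
    [Algebra F₁ k₀] {ι : Type}
    [Field L] [Algebra (MvPolynomial ι k₀) L] [IsFractionRing (MvPolynomial ι k₀) L] [Algebra k₀ L]
    [IsScalarTower k₀ (MvPolynomial ι k₀) L] [Algebra F₁ L] [IsScalarTower F₁ k₀ L] [DecidableEq ι]
    {t u : k₀} {i : ι} {s : Finset ι} {w : ι → k₀} (htu : AlgebraicIndependent F₁ ![t, u])
    (hi : i ∈ s) (hw : w i = t)
    (hk : ∀ z : k₀, IsAlgebraic (IntermediateField.adjoin F₁ {t, u}) z) (E : Finset k₀) :
    ∃ D : (MvPolynomial ι F₁)[X][X], D ≠ 0 ∧ ∀ e ∈ E, HasCert (B := (MvPolynomial ι F₁)[X][X])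
      (phi F₁ s w u) (MvPolynomial.C e) D := by
  classical
  have hinj : Function.Injective (algebraMap (MvPolynomial ι k₀) L) := IsFractionRing.injective _ _
  have hL0 : CharZero L := charZero_of_injective_algebraMap (algebraMap F₁ L).injective
  obtain ⟨D, hD, hcert⟩ := exists_certs (B := (MvPolynomial ι F₁)[X][X])
    ((algebraMap (MvPolynomial ι k₀) L).comp (phi F₁ s w u)) (phi_injective L htu hi hw)
    (E.image fun e => algebraMap (MvPolynomial ι k₀) L (MvPolynomial.C e))
    (fun e _ => phi_algebraic L htu hi hw hk e)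
  exact ⟨D, hD, fun e he => (hcert _ (Finset.mem_image_of_mem _ he)).of_map hinj⟩

theorem exists_univ_certs {F₁ k₀ : Type u} [Field F₁] [CharZero F₁] [Field k₀]
    [Algebra F₁ k₀] {ι : Type} [DecidableEq ι]
    {t u : k₀} {i : ι} {s : Finset ι} {w : ι → k₀} (htu : AlgebraicIndependent F₁ ![t, u])
    (hi : i ∈ s) (hw : w i = t)
    (hk : ∀ z : k₀, IsAlgebraic (IntermediateField.adjoin F₁ {t, u}) z) (E : Finset k₀) :
    ∃ D : (MvPolynomial ι F₁)[X][X], D ≠ 0 ∧ ∀ e ∈ E, HasCert (B := (MvPolynomial ι F₁)[X][X])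
      (phi F₁ s w u) (MvPolynomial.C e) D :=
  exists_univ_certs' (FractionRing (MvPolynomial ι k₀)) htu hi hw hk E

/-- specialization of the coefficients -/
theorem spec_phi {F₁ k₀ F' k : Type u} [Field F₁] [Field k₀] [Algebra F₁ k₀] [Field F'] [Field k]
    [Algebra F₁ F'] [Algebra F' k] [Algebra k₀ k] [Algebra F₁ k] [IsScalarTower F₁ F' k]
    [IsScalarTower F₁ k₀ k] {ι : Type} (s : Finset ι) (w : ι → k₀) (u : k₀) (b : ι → F')
    (f : MvPolynomial ι F₁ →ₐ[F₁] F') (hf : f = MvPolynomial.aeval b) :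
    (MvPolynomial.aeval (fun e => algebraMap F' k (b e)) : MvPolynomial ι k₀ →ₐ[k₀] k).toRingHom.comp
      (phi F₁ s w u) =
      (ev F' (∑ e ∈ s, algebraMap F' k (b e) * algebraMap k₀ k (w e)) (algebraMap k₀ k u)).comp
        (mapRingHom (mapRingHom f.toRingHom)) := by
  subst hf
  refine ringHom_ext₂ (fun c => ?_) ?_ ?_
  · rw [RingHom.comp_apply, RingHom.comp_apply, phi_CC, coe_mapRingHom, map_C, coe_mapRingHom,
      map_C, ev_C, aeval_C]
    change MvPolynomial.aeval (fun e => algebraMap F' k (b e))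
      (MvPolynomial.map (algebraMap F₁ k₀) c) = algebraMap F' k (MvPolynomial.aeval b c)
    rw [MvPolynomial.aeval_map_algebraMap]
    exact MvPolynomial.aeval_algebraMap_apply k b c
  · rw [RingHom.comp_apply, RingHom.comp_apply, phi_CX, coe_mapRingHom, map_C, coe_mapRingHom,
      map_X, ev_C, aeval_X]
    unfold TP
    rw [map_sum]
    refine Finset.sum_congr rfl fun e _ => ?_
    rw [map_mul]
    congr 1
    · exact MvPolynomial.aeval_X _ _
    · exact MvPolynomial.aeval_C _ _
  · rw [RingHom.comp_apply, RingHom.comp_apply, phi_X, coe_mapRingHom, map_X, ev_X]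
    exact MvPolynomial.aeval_C _ _

theorem phi_ne_zero' (L : Type u) {F₁ k₀ : Type u} [Field F₁] [CharZero F₁] [Field k₀]
    [Algebra F₁ k₀] {ι : Type}
    [Field L] [Algebra (MvPolynomial ι k₀) L] [IsFractionRing (MvPolynomial ι k₀) L] [Algebra k₀ L]
    [IsScalarTower k₀ (MvPolynomial ι k₀) L] [Algebra F₁ L] [IsScalarTower F₁ k₀ L] [DecidableEq ι]
    {t u : k₀} {i : ι} {s : Finset ι} {w : ι → k₀} (htu : AlgebraicIndependent F₁ ![t, u])
    (hi : i ∈ s) (hw : w i = t) {D : (MvPolynomial ι F₁)[X][X]} (hD : D ≠ 0) :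
    phi F₁ s w u D ≠ 0 := by
  intro h
  apply hD
  apply phi_injective L htu hi hw
  rw [map_zero, RingHom.comp_apply, h, map_zero]

theorem phi_ne_zero {F₁ k₀ : Type u} [Field F₁] [CharZero F₁] [Field k₀]
    [Algebra F₁ k₀] {ι : Type} [DecidableEq ι]
    {t u : k₀} {i : ι} {s : Finset ι} {w : ι → k₀} (htu : AlgebraicIndependent F₁ ![t, u])
    (hi : i ∈ s) (hw : w i = t) {D : (MvPolynomial ι F₁)[X][X]} (hD : D ≠ 0) :
    phi F₁ s w u D ≠ 0 :=
  phi_ne_zero' (FractionRing (MvPolynomial ι k₀)) htu hi hw hD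

theorem ev_mem_field {F k : Type u} [Field F] [Field k] [Algebra F k] {t u : k}
    {M : IntermediateField F k} (ht : t ∈ M) (hu : u ∈ M) (p : F[X][X]) : ev F t u p ∈ M := by
  have h1 : ∀ q : F[X], aeval t q ∈ M := by
    intro q
    induction q using Polynomial.induction_on with
    | C a => rw [aeval_C]; exact M.algebraMap_mem a
    | add p q hp hq => rw [map_add]; exact M.add_mem hp hq
    | monomial n a ih =>
      rw [pow_succ, ← mul_assoc, map_mul, aeval_X]
      exact M.mul_mem ih ht
  induction p using Polynomial.induction_on with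
  | C a => rw [ev_C]; exact h1 a
  | add p q hp hq => rw [map_add]; exact M.add_mem hp hq
  | monomial n a ih =>
    rw [pow_succ, ← mul_assoc, map_mul, ev_X]
    exact M.mul_mem ih hu

/-- **(A)** Good discriminants for all members of the linear system outside a hypersurface. -/
theorem exists_goodAt {F₁ k₀ : Type u} [Field F₁] [CharZero F₁] [Field k₀] [Algebra F₁ k₀]
    {ι : Type} [Fintype ι] [DecidableEq ι] {w : ι → k₀} {i j l : ι} (hl : w l = 1)
    (hij : AlgebraicIndependent F₁ ![w i, w j])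
    (hk : ∀ z : k₀, IsAlgebraic (IntermediateField.adjoin F₁ {w i, w j}) z) (E : Finset k₀) :
    ∃ Ψ : MvPolynomial ι F₁, Ψ ≠ 0 ∧ ∃ Ψ' : MvPolynomial ι k₀, Ψ' ≠ 0 ∧
      ∀ (F' k : Type u) [Field F'] [Field k] [Algebra F₁ F'] [Algebra F' k] [Algebra k₀ k]
        [Algebra F₁ k] [IsScalarTower F₁ F' k] [IsScalarTower F₁ k₀ k] [DecidableEq k] (a : ι → F'),
        MvPolynomial.aeval a Ψ ≠ 0 → MvPolynomial.aeval (fun e => algebraMap F' k (a e)) Ψ' ≠ 0 →
        (∃ Δ : F'[X][X], GoodDisc Δ ∧
          GoodAt F' (∑ e, algebraMap F' k (a e) * algebraMap k₀ k (w e)) (algebraMap k₀ k (w j)) Δ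
            (E.image (algebraMap k₀ k))) ∧
        ∀ e ∈ E, IsAlgebraic (IntermediateField.adjoin F'
          {∑ e, algebraMap F' k (a e) * algebraMap k₀ k (w e), algebraMap k₀ k (w j)})
            (algebraMap k₀ k e) := by
  -- the three indices are different
  have hlj : j ≠ l := by
    rintro rfl
    rw [hl] at hij
    exact transc_F_u hij isAlgebraic_one
  have hli : i ≠ l := by
    rintro rfl
    rw [hl] at hij
    exact transc_F_t hij isAlgebraic_one
  have hne : i ≠ j := by
    rintro rfl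
    have h1 := hij.injective (show ![w i, w i] 0 = ![w i, w i] 1 from rfl)
    exact absurd h1 (by decide)
  set s : Finset ι := Finset.univ \ {l, j} with hs
  have his : i ∈ s := by
    rw [hs, Finset.mem_sdiff, Finset.mem_insert, Finset.mem_singleton]
    exact ⟨Finset.mem_univ _, fun h => h.elim hli hne⟩
  have hes : ∀ e ∈ s, e ≠ l ∧ e ≠ j := by
    intro e he
    rw [hs, Finset.mem_sdiff, Finset.mem_insert, Finset.mem_singleton, not_or] at he
    exact he.2
  obtain ⟨D, hD, hcert⟩ := exists_univ_certs hij his rfl hk E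
  obtain ⟨Ψ, hΨ, c, c', Δ, N, hspread⟩ := exists_spread hD hlj
  refine ⟨Ψ, hΨ, shiftP k₀ j (algebraMap F₁ k₀ c) (shiftP k₀ l (algebraMap F₁ k₀ c')
    (phi F₁ s w (w j) D)), shiftP_ne_zero _ _ (shiftP_ne_zero _ _
      (phi_ne_zero hij his rfl hD)), ?_⟩
  intro F' k _ _ _ _ _ _ _ _ _ a ha ha'
  set b : ι → F' := fun e => (a e + if e = j then algebraMap F₁ F' c else 0) +
    if e = l then algebraMap F₁ F' c' else 0 with hb
  set f : MvPolynomial ι F₁ →ₐ[F₁] F' := MvPolynomial.aeval b with hf
  obtain ⟨hΔ, hdvd⟩ := hspread F' a ha f hf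
  set v : k := ∑ e, algebraMap F' k (a e) * algebraMap k₀ k (w e) with hv
  set T : k := ∑ e ∈ s, algebraMap F' k (b e) * algebraMap k₀ k (w e) with hT
  have hvT : v = T - algebraMap F' k (-a j) * algebraMap k₀ k (w j) - algebraMap F' k (-a l) := by
    have h1 : v = ∑ e ∈ s, algebraMap F' k (a e) * algebraMap k₀ k (w e) +
        ∑ e ∈ ({l, j} : Finset ι), algebraMap F' k (a e) * algebraMap k₀ k (w e) := by
      rw [hv, hs, Finset.sum_sdiff (Finset.subset_univ _)]
    have h2 : T = ∑ e ∈ s, algebraMap F' k (a e) * algebraMap k₀ k (w e) := by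
      rw [hT]
      refine Finset.sum_congr rfl fun e he => ?_
      obtain ⟨h3, h4⟩ := hes e he
      rw [hb]
      simp only [if_neg h3, if_neg h4, add_zero]
    rw [h1, ← h2, Finset.sum_pair hlj.symm, hl, map_one, map_neg, map_neg]
    ring
  set φ : (MvPolynomial ι F₁)[X][X] →+* k := (ev F' T (algebraMap k₀ k (w j))).comp
    (mapRingHom (mapRingHom f.toRingHom)) with hφ
  have hspec : (MvPolynomial.aeval (fun e => algebraMap F' k (b e)) :
      MvPolynomial ι k₀ →ₐ[k₀] k).toRingHom.comp (phi F₁ s w (w j)) = φ := spec_phi s w (w j) b f hf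
  have hcertk : ∀ e ∈ E, HasCert (B := (MvPolynomial ι F₁)[X][X]) φ (algebraMap k₀ k e) D := by
    intro e he
    have h4 := (hcert e he).map (MvPolynomial.aeval (fun e => algebraMap F' k (b e)) :
      MvPolynomial ι k₀ →ₐ[k₀] k).toRingHom
    rw [hspec] at h4
    have h5 : (MvPolynomial.aeval (fun e => algebraMap F' k (b e)) :
      MvPolynomial ι k₀ →ₐ[k₀] k).toRingHom (MvPolynomial.C e) = algebraMap k₀ k e :=
      MvPolynomial.aeval_C _ _
    rw [h5] at h4
    exact h4
  refine ⟨⟨_, hΔ, ?_⟩, fun e he => ?_⟩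
  swap
  · refine (hcertk e he).algebraic ?_ ?_
    · rw [aeval_shiftP, aeval_shiftP] at ha'
      have h6 : (fun e => (algebraMap F' k (a e) +
          if e = j then algebraMap k₀ k (algebraMap F₁ k₀ c) else 0) +
            if e = l then algebraMap k₀ k (algebraMap F₁ k₀ c') else 0) =
          fun e => algebraMap F' k (b e) := by
        funext e
        rw [hb, map_add, map_add]
        congr 1
        · congr 1
          split_ifs
          · rw [← IsScalarTower.algebraMap_apply F₁ k₀ k, ← IsScalarTower.algebraMap_apply F₁ F' k]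
          · rw [map_zero]
        · split_ifs
          · rw [← IsScalarTower.algebraMap_apply F₁ k₀ k, ← IsScalarTower.algebraMap_apply F₁ F' k]
          · rw [map_zero]
      rw [h6] at ha'
      have h7 := congrArg (fun g : (MvPolynomial ι F₁)[X][X] →+* k => g D) hspec
      change MvPolynomial.aeval (fun e => algebraMap F' k (b e)) (phi F₁ s w (w j) D) = φ D at h7
      rw [← h7]
      exact ha'
    · intro b'
      have hTM : T ∈ IntermediateField.adjoin F' {v, algebraMap k₀ k (w j)} := by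
        have h1 : T = v + algebraMap F' k (-a j) * algebraMap k₀ k (w j) + algebraMap F' k (-a l) := by
          rw [hvT]; ring
        rw [h1]
        refine add_mem (add_mem (IntermediateField.subset_adjoin _ _ (Or.inl rfl))
          (mul_mem (IntermediateField.algebraMap_mem _ _)
            (IntermediateField.subset_adjoin _ _ (Or.inr rfl)))) (IntermediateField.algebraMap_mem _ _)
      exact ⟨⟨_, ev_mem_field hTM (IntermediateField.subset_adjoin _ _ (Or.inr rfl)) _⟩, rfl⟩
  intro Ω _ _ W hFW hvW huW hunit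
  have hTW : algebraMap k Ω T ∈ W := by
    have h1 : T = v + algebraMap F' k (-a j) * algebraMap k₀ k (w j) + algebraMap F' k (-a l) := by
      rw [hvT]; ring
    rw [h1, map_add, map_add, map_mul]
    exact W.add_mem _ _ (W.add_mem _ _ hvW (W.mul_mem _ _ (hFW _) huW)) (hFW _)
  have hunit' : algebraMap k Ω (ev F' T (algebraMap k₀ k (w j)) (D.map (mapRingHom f.toRingHom))) ∉
      W.nonunits := by
    obtain ⟨Z, hZ⟩ := hdvd
    have h1 := pow_notMem_nonunits hunit N
    rw [← map_pow, ← map_pow, hZ, map_mul, map_mul] at h1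
    have h2 := (notMem_nonunits_of_mul (ev_mem hFW hvW huW _) (ev_mem hFW hvW huW _) h1).1
    rwa [hvT, ev_shear] at h2
  have hφW : ∀ b, algebraMap k Ω (φ b) ∈ W := fun b => by
    rw [hφ, RingHom.comp_apply]
    exact ev_mem hFW hTW huW _
  have hφD : algebraMap k Ω (φ D) ∉ W.nonunits := by
    rw [hφ, RingHom.comp_apply]
    exact hunit'
  clear_value φ
  have hall : ∀ e ∈ E, algebraMap k Ω (algebraMap k₀ k e) ∈ W ∧ ∀ τ : Ω →+* Ω,
      (∀ b, τ (algebraMap k Ω (φ b)) = algebraMap k Ω (φ b)) →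
      (∀ z ∈ W, τ z - z ∈ W.nonunits) →
      τ (algebraMap k Ω (algebraMap k₀ k e)) = algebraMap k Ω (algebraMap k₀ k e) := by
    intro e he
    exact cert_good (B := (MvPolynomial ι F₁)[X][X]) φ (hcertk e he) W hφW hφD
  refine ⟨fun x hx => ?_, fun τ hτF hτv hτu hτW x hx => ?_⟩
  · obtain ⟨e, he, rfl⟩ := Finset.mem_image.1 hx
    exact (hall e he).1
  · obtain ⟨e, he, rfl⟩ := Finset.mem_image.1 hx
    refine (hall e he).2 τ ?_ hτW
    have hτT : τ (algebraMap k Ω T) = algebraMap k Ω T := by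
      have h1 : T = v + algebraMap F' k (-a j) * algebraMap k₀ k (w j) + algebraMap F' k (-a l) := by
        rw [hvT]; ring
      rw [h1]
      simp only [map_add, map_mul, hτF, hτv, hτu]
    have h6 : τ.comp ((algebraMap k Ω).comp (ev F' T (algebraMap k₀ k (w j)))) =
        (algebraMap k Ω).comp (ev F' T (algebraMap k₀ k (w j))) := by
      refine ringHom_ext₂ (fun c => ?_) ?_ ?_
      · rw [RingHom.comp_apply, RingHom.comp_apply, ev_C, aeval_C]
        exact hτF c
      · rw [RingHom.comp_apply, RingHom.comp_apply, ev_C, aeval_X]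
        exact hτT
      · rw [RingHom.comp_apply, RingHom.comp_apply, ev_X]
        exact hτu
    intro b
    have h7 := congrArg (fun g : F'[X][X] →+* Ω => g (mapRingHom (mapRingHom f.toRingHom) b)) h6
    rw [hφ, RingHom.comp_apply]
    exact h7

end Pool.Agent.TWH
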